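import Mathlib
import Pool.Agent.Lib.helper4.SkewL

set_option autoImplicit false

open Pool.Agent.Lib.helper4 Pool.Agent.Lib.helper4.SkewLaurent PowerSeries

namespace Pool.Agent.Results.MP_669787_al.NotNil

/-- `R` is semilocal: `R / J(R)` is a semisimple (Artinian) ring. -/
def Semilocal (R : Type) [Ring R] : Prop := IsSemisimpleRing (R ⧸ Ring.jacobson R)

/-- Proof device: sequences of power series over `𝔽₂` indexed by `ℤ`, all with the same constant
term `c` and equal to `c` at all but finitely many places. -/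
noncomputable def S : Subring (ℤ → (ZMod 2)⟦X⟧) where
  carrier := {a | ∃ c : ZMod 2, (∀ i, constantCoeff (a i) = c) ∧ {i | a i ≠ C c}.Finite}
  zero_mem' := ⟨0, by simp, by simp⟩
  one_mem' := ⟨1, by simp, by simp⟩
  add_mem' := by
    rintro a b ⟨c, h1, h2⟩ ⟨d, h3, h4⟩
    refine ⟨c + d, by simp [h1, h3], (h2.union h4).subset fun i hi => ?_⟩
    by_contra h
    simp only [Set.mem_union, Set.mem_ofPred_eq, not_or, not_not] at h
    exact hi (by simp [h.1, h.2])
  mul_mem' := by
    rintro a b ⟨c, h1, h2⟩ ⟨d, h3, h4⟩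
    refine ⟨c * d, by simp [h1, h3], (h2.union h4).subset fun i hi => ?_⟩
    by_contra h
    simp only [Set.mem_union, Set.mem_ofPred_eq, not_or, not_not] at h
    exact hi (by simp [h.1, h.2])
  neg_mem' := by
    rintro a ⟨c, h1, h2⟩
    refine ⟨-c, fun i => by rw [Pi.neg_apply, map_neg, h1], h2.subset fun i hi => ?_⟩
    intro h
    exact hi (by rw [Pi.neg_apply, h, map_neg])

theorem shift_mem (k : ℤ) (a : S) : (fun i => a.1 (i + k)) ∈ S := by
  obtain ⟨c, h1, h2⟩ := a.2
  exact ⟨c, fun i => h1 _, h2.preimage (add_left_injective k).injOn⟩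

/-- Proof device: the shift automorphism. -/
noncomputable def sh : RingAut S where
  toFun a := ⟨_, shift_mem (-1) a⟩
  invFun a := ⟨_, shift_mem 1 a⟩
  left_inv a := by ext i; simp
  right_inv a := by ext i; simp
  map_mul' _ _ := rfl
  map_add' _ _ := rfl

theorem sh_pow (n : ℤ) : ∀ (a : S) (i : ℤ), ((sh ^ n) a).1 i = a.1 (i - n) := by
  induction n using Int.induction_on with
  | zero => simp
  | succ n ih =>
    intro a i
    rw [zpow_add_one]
    change ((sh ^ (n : ℤ)) (sh a)).1 i = _
    rw [ih]
    change a.1 (i - n + -1) = _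
    ring_nf
  | pred n ih =>
    intro a i
    rw [zpow_sub_one]
    change ((sh ^ (-(n : ℤ))) (sh.symm a)).1 i = _
    rw [ih]
    change a.1 (i - -n + 1) = _
    ring_nf

/-- Proof device: the maximal ideal of `S`. -/
def M (a : S) : Prop := ∀ i, constantCoeff (a.1 i) = 0

theorem unit_of (a : S) (h : ¬ M a) : ∃ b : S, b * a = 1 := by
  obtain ⟨c, h1, h2⟩ := a.2
  have z2 : ∀ a : ZMod 2, a = 0 ∨ a = 1 := by decide
  rcases z2 c with rfl | rfl
  · exact absurd h1 h
  have hu : ∀ i, IsUnit (a.1 i) := fun i => isUnit_iff_constantCoeff.2 (by rw [h1]; exact isUnit_one)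
  refine ⟨⟨fun i => Ring.inverse (a.1 i), 1, fun i => ?_, h2.subset fun i hi h => hi ?_⟩, ?_⟩
  · have := congrArg constantCoeff (Ring.inverse_mul_cancel _ (hu i))
    simpa [h1] using this
  · simp only [map_one] at h ⊢
    rw [h, Ring.inverse_one]
  · ext1; funext i
    exact Ring.inverse_mul_cancel _ (hu i)

theorem one_sub (w : S) (h : M w) : ∃ b : S, b * (1 - w) = 1 :=
  unit_of _ fun h' => by simpa [h 0] using h' 0

theorem M.mul_left (a : S) {b : S} (h : M b) : M (a * b) := fun i => by simp [h i]

theorem M.sh_pow {b : S} (h : M b) (n : ℤ) : M ((sh ^ n) b) := fun i => by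
  rw [NotNil.sh_pow]; exact h _

theorem mem_J {R : Type} [Ring R] {x : R} :
    x ∈ Ring.jacobson R ↔ ∀ y, ∃ z, z * (1 - y * x) = 1 := by
  rw [← Ideal.jacobson_bot, Ideal.mem_jacobson_iff]
  constructor
  · intro h y
    obtain ⟨z, hz⟩ := h (-y)
    exact ⟨z, by rw [← sub_eq_zero, ← (Submodule.mem_bot R).1 hz]; noncomm_ring⟩
  · intro h y
    obtain ⟨z, hz⟩ := h (-y)
    exact ⟨z, (Submodule.mem_bot R).2 (by rw [← hz]; noncomm_ring)⟩

theorem single_add (n : ℤ) (a b : S) : single sh n (a + b) = single sh n a + single sh n b :=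
  SkewLaurent.ext fun i => by
    simp only [coeff_add, coeff_single]; split_ifs <;> simp

theorem J_point (s : S) (hs : M s) (i : ℤ) (hi : ∀ j, j ≠ i → s.1 j = 0) :
    single sh 0 s ∈ Ring.jacobson (SkewLaurent sh) := by
  refine mem_J.2 fun r => ?_
  set y := single sh 0 s with hy
  have h1 : y * r * y = single sh 0 (r.coeff 0 * s) * y := by
    refine SkewLaurent.ext fun n => ?_
    rw [hy, single_mul_single, coeff_mul_single, coeff_single_mul, coeff_single]
    simp only [sub_zero, add_zero, zpow_zero, RingAut.one_apply]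
    split_ifs with hn
    · subst hn; simp [mul_comm]
    · ext1; funext j
      simp only [Subring.coe_mul, Pi.mul_apply, sh_pow, ZeroMemClass.coe_zero, Pi.zero_apply]
      by_cases hj : j = i
      · rw [hi (j - n) (by omega), mul_zero]
      · rw [hi j hj, zero_mul, zero_mul]
  obtain ⟨v, hv⟩ := one_sub _ (hs.mul_left (r.coeff 0))
  have h2 : single sh 0 v * (1 - single sh 0 (r.coeff 0 * s)) = 1 := by
    have : (1 : SkewLaurent sh) = single sh 0 (1 - r.coeff 0 * s) + single sh 0 (r.coeff 0 * s) := by
      rw [← single_add, sub_add_cancel, one_def]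
    rw [sub_eq_of_eq_add this, single_mul_single, one_def]
    simp [hv]
  set V := single sh 0 v
  set W := single sh 0 (r.coeff 0 * s)
  refine ⟨1 + r * V * y, ?_⟩
  calc (1 + r * V * y) * (1 - r * y) = 1 - r * y + r * V * y - r * V * (y * r * y) := by
        noncomm_ring
    _ = 1 - r * y + r * (V * (1 - W)) * y := by rw [h1]; noncomm_ring
    _ = 1 := by rw [h2]; noncomm_ring

theorem J_single (n : ℤ) (a : S) (ha : M a) : single sh n a ∈ Ring.jacobson (SkewLaurent sh) := by
  classical
  have h0 : single sh n a = single sh 0 a * single sh n 1 := by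
    rw [single_mul_single]; simp
  rw [h0]
  refine Ideal.mul_mem_right _ _ ?_
  have key : ∀ (F : Finset ℤ) (a : S), M a → (∀ j, j ∉ F → a.1 j = 0) →
      single sh 0 a ∈ Ring.jacobson (SkewLaurent sh) := by
    intro F
    induction F using Finset.induction_on with
    | empty => exact fun a ha h => J_point a ha 0 fun j _ => h j (by simp)
    | insert i F _ ih =>
      intro a ha h
      let s : S := ⟨Pi.single i (a.1 i), 0, fun j => by
        by_cases hj : j = i
        · subst hj; simp [ha j]
        · simp [hj], (Set.finite_singleton i).subset fun j hj => by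
          by_contra h'; exact hj (by simp [Pi.single_eq_of_ne h'])⟩
      have hs : M s := fun j => by
        by_cases hj : j = i
        · subst hj; simp [s, ha j]
        · simp [s, hj]
      rw [← sub_add_cancel a s, single_add]
      refine add_mem (ih _ (fun j => by simp [ha j, hs j]) fun j hj => ?_)
        (J_point s hs i fun j hj => by simp [s, hj])
      by_cases hji : j = i
      · subst hji; simp [s]
      · simp [s, hji, h j (by simp [hji, hj])]
  obtain ⟨c, h1, h2⟩ := a.2
  obtain rfl : c = 0 := (h1 0).symm.trans (ha 0)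
  exact key h2.toFinset a ha fun j hj => by simpa using hj

theorem left_inv (f : SkewLaurent sh) (hf : ∀ i, i ≤ 0 → M (f.coeff i)) :
    ∃ g, g * (1 - f) = 1 := by
  obtain ⟨N, hN⟩ := f.exists_bound
  let l : SkewLaurent sh := ∑ i ∈ Finset.Icc N 0, single sh i (f.coeff i)
  have hl : l ∈ Ring.jacobson (SkewLaurent sh) :=
    Submodule.sum_mem _ fun i hi => J_single i _ (hf i (Finset.mem_Icc.1 hi).2)
  have hc : ∀ n, l.coeff n = if n ∈ Finset.Icc N 0 then f.coeff n else 0 := fun n => by
    have : l.coeff n = ∑ i ∈ Finset.Icc N 0, (single sh i (f.coeff i)).coeff n :=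
      map_sum (AddMonoidHom.mk' (fun g : SkewLaurent sh => g.coeff n) fun a b => coeff_add a b n) _ _
    rw [this]
    simp only [coeff_single]
    rw [Finset.sum_ite_eq]
  obtain ⟨g, hg⟩ := left_inv_one_sub (f - l) fun i hi => by
    by_contra h
    refine hi ?_
    rw [coeff_sub, hc]
    split_ifs with h1
    · exact sub_self _
    · rw [sub_zero]
      by_contra h2
      exact h1 (Finset.mem_Icc.2 ⟨hN i h2, by omega⟩)
  obtain ⟨z, hz⟩ := mem_J.1 hl g
  refine ⟨z * g, ?_⟩
  calc z * g * (1 - f) = z * (g * (1 - (f - l)) - g * l) := by noncomm_ring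
    _ = 1 := by rw [hg, hz]

theorem dichotomy (f : SkewLaurent sh) :
    f ∈ Ring.jacobson (SkewLaurent sh) ∨ ∃ g, g * f = 1 := by
  by_cases h : ∀ i, M (f.coeff i)
  · refine Or.inl (mem_J.2 fun r => left_inv _ fun n _ => ?_)
    obtain ⟨N, h1, h2, -⟩ := bound3 r f f
    rw [coeff_mul r f n (Finset.Icc N (n - N)) fun i a b => by
      have := h1 i a; have := h2 _ b; simp; omega]
    intro j
    rw [AddSubmonoidClass.coe_finsetSum, Finset.sum_apply, map_sum]
    exact Finset.sum_eq_zero fun i _ => ((h _).sh_pow i).mul_left _ j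
  · right
    push Not at h
    obtain ⟨N, hN⟩ := f.exists_bound
    obtain ⟨n, hn1, hn2⟩ := Int.exists_least_of_bdd (P := fun i => ¬ M (f.coeff i))
      ⟨N, fun i hi => hN i fun h0 => hi (by rw [h0]; exact fun _ => by simp)⟩ h
    obtain ⟨u, hu⟩ := unit_of _ hn1
    obtain ⟨g, hg⟩ := left_inv (1 - single sh (-n) ((sh ^ (-n)) u) * f) fun i hi => by
      rw [coeff_sub, coeff_single_mul, SkewLaurent.coeff_one, ← map_mul]
      split_ifs with h0
      · subst h0
        rw [zero_sub, neg_neg, hu, map_one, sub_self]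
        exact fun _ => by simp
      · have : M (f.coeff (i - -n)) := by
          by_contra h1; have := hn2 _ h1; omega
        intro j
        have := (this.mul_left u).sh_pow (-n) j
        simpa using this
    exact ⟨g * single sh (-n) ((sh ^ (-n)) u), by rw [← hg, sub_sub_cancel, mul_assoc]⟩

theorem result : ∃ (A : Type) (_ : Ring A) (φ : RingAut A),
    Semilocal (SkewLaurent φ) ∧ ∃ a ∈ Ring.jacobson A, ¬ IsNilpotent a := by
  classical
  refine ⟨S, inferInstance, sh, ?_, ?_⟩
  · refine (isSemisimpleModule_iff _ _).2 ⟨fun K => ?_⟩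
    by_cases hK : K = ⊥
    · exact ⟨⊤, hK ▸ isCompl_bot_top⟩
    · obtain ⟨x, hx, hx0⟩ := (Submodule.ne_bot_iff K).1 hK
      obtain ⟨f, rfl⟩ := Ideal.Quotient.mk_surjective x
      rcases dichotomy f with h | ⟨g, hg⟩
      · exact absurd (Ideal.Quotient.eq_zero_iff_mem.2 h) hx0
      · have : K = ⊤ := (Ideal.eq_top_iff_one K).2 (by
          have := K.smul_mem (Ideal.Quotient.mk _ g) hx
          rwa [smul_eq_mul, ← map_mul, hg, map_one] at this)
        exact ⟨⊥, this ▸ isCompl_top_bot⟩
  · let s : S := ⟨Pi.single 0 X, 0, fun j => by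
      by_cases hj : j = 0
      · subst hj; simp
      · simp [hj], (Set.finite_singleton 0).subset fun j hj => by
        by_contra h'; exact hj (by simp [Pi.single_eq_of_ne h'])⟩
    have hs : M s := fun j => by
      by_cases hj : j = 0
      · subst hj; simp [s]
      · simp [s, hj]
    refine ⟨s, mem_J.2 fun y => one_sub _ (hs.mul_left y), ?_⟩
    rintro ⟨n, hn⟩
    have := congrArg (fun a : S => a.1 0) hn
    simp [s] at this

end Pool.Agent.Results.MP_669787_al.NotNil
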